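import Mathlib

set_option autoImplicit false

namespace Pool.Agent.Results.MP_6d1e65_an.Strongest

open Set Filter Topology
open scoped ENNReal

/-- Distance distribution functions. -/
structure DDF where
  f : ℝ≥0∞ → ℝ
  mono : Monotone f
  zero : f 0 = 0
  top : f ⊤ = 1
  lc : ∀ x, 0 < x → x < ⊤ → ContinuousWithinAt f (Iic x) x

/-- The pointwise order. -/
def Le (F G : DDF) : Prop := ∀ x, F.f x ≤ G.f x

/-- `F = ε₀`. -/
def IsEps0 (F : DDF) : Prop := ∀ x, 0 < x → F.f x = 1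

/-- `F = ε_∞`. -/
def IsEpsInf (F : DDF) : Prop := ∀ x, x < ⊤ → F.f x = 0

/-- Triangle functions. -/
def IsTriangle (τ : DDF → DDF → DDF) : Prop :=
  (∀ F G, τ F G = τ G F) ∧ (∀ F G H, τ (τ F G) H = τ F (τ G H)) ∧
  (∀ F F' G, Le F F' → Le (τ F G) (τ F' G)) ∧ (∀ F G G', Le G G' → Le (τ F G) (τ F G')) ∧
  ∀ E F, IsEps0 E → τ E F = F

/-- `F(x) = G(x / d)` for finite `x` (in `[0,∞]`, `x / 0 = ∞` for `x > 0` and `0 / 0 = 0`). -/
def IsDil (G : DDF) (d : ℝ≥0∞) (F : DDF) : Prop := ∀ x, x < ⊤ → F.f x = G.f (x / d)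

/-- Every simple space is a PM space under `τ`. -/
def Universal (τ : DDF → DDF → DDF) : Prop :=
  ∀ (S : Type) [EMetricSpace S] (G : DDF), ¬ IsEps0 G → ¬ IsEpsInf G →
    ∀ 𝓕 : S → S → DDF, (∀ p q, IsDil G (edist p q) (𝓕 p q)) →
      ∀ p q r, Le (τ (𝓕 p q) (𝓕 q r)) (𝓕 p r)

/-- The value `τ_M(F,G)(x)`. -/
noncomputable def tauM (F G : DDF) (x : ℝ≥0∞) : ℝ :=
  sSup {t | ∃ u v, u + v = x ∧ t = min (F.f u) (G.f v)}

lemma le_one (F : DDF) (x : ℝ≥0∞) : F.f x ≤ 1 := F.top ▸ F.mono le_top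
lemma nonneg (F : DDF) (x : ℝ≥0∞) : 0 ≤ F.f x := F.zero ▸ F.mono zero_le

lemma lc_comp (F : DDF) {g : ℝ≥0∞ → ℝ≥0∞} (hg : Monotone g) {x : ℝ≥0∞} (hc : ContinuousAt g x)
    (h0 : 0 < g x) (h1 : g x < ⊤) : ContinuousWithinAt (fun s => F.f (g s)) (Iic x) x :=
  ContinuousWithinAt.comp (F.lc _ h0 h1) hc.continuousWithinAt fun _ hy => hg hy

lemma lc_le (F : DDF) {x : ℝ≥0∞} (h1 : x < ⊤) {t : ℝ} (ht : 0 ≤ t) (h : ∀ y < x, F.f y ≤ t) :
    F.f x ≤ t := by
  rcases eq_or_ne x 0 with rfl | h0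
  · rwa [F.zero]
  · have h0' : 0 < x := pos_iff_ne_zero.2 h0
    haveI : (𝓝[<] x).NeBot := nhdsLT_neBot_of_exists_lt ⟨0, h0'⟩
    exact le_of_tendsto ((F.lc x h0' h1).mono Iio_subset_Iic_self)
      (eventually_nhdsWithin_of_forall h)

noncomputable def eps0 : DDF where
  f x := if x = 0 then 0 else 1
  mono a b h := by
    by_cases ha : a = 0
    · simp only [ha, if_true]
      split_ifs <;> norm_num
    · have : b ≠ 0 := fun hb => ha (le_antisymm (hb ▸ h) zero_le)
      simp [ha, this]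
  zero := by simp
  top := by simp
  lc x h0 _ := by
    refine ContinuousAt.continuousWithinAt (continuousAt_const.congr (f := fun _ => (1 : ℝ)) ?_)
    filter_upwards [Ioi_mem_nhds h0] with y hy
    rw [if_neg (ne_of_gt hy)]

noncomputable def dil (G : DDF) (d : ℝ≥0∞) : DDF where
  f x := if x = ⊤ then 1 else G.f (x / d)
  mono a b h := by
    by_cases hb : b = ⊤
    · simp only [hb, if_true]
      split_ifs
      · rfl
      · exact le_one _ _
    · have : a ≠ ⊤ := ne_top_of_le_ne_top hb h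
      simp only [hb, this, if_false]
      exact G.mono (ENNReal.div_le_div_right h d)
  zero := by simp [G.zero]
  top := by simp
  lc x h0 h1 := by
    refine ContinuousWithinAt.congr (f := fun y => G.f (y / d)) ?_
      (fun y hy => if_neg (ne_top_of_le_ne_top h1.ne hy)) (if_neg h1.ne)
    rcases eq_or_ne d 0 with rfl | d0
    · refine ContinuousAt.continuousWithinAt (continuousAt_const.congr (f := fun _ => G.f ⊤) ?_)
      filter_upwards [Ioi_mem_nhds h0] with y hy
      rw [ENNReal.div_zero (ne_of_gt hy)]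
    rcases eq_or_ne d ⊤ with rfl | d1
    · simpa using continuousWithinAt_const
    exact lc_comp G (g := fun y => y / d) (fun a b h => ENNReal.div_le_div_right h d)
      (ENNReal.continuous_div_const d d0).continuousAt (ENNReal.div_pos h0.ne' d1)
      (ENNReal.div_lt_top h1.ne d0)

noncomputable def mx (F G : DDF) (u v : ℝ≥0∞) (hu : 0 < u) (hu' : u < ⊤) (hv : 0 < v)
    (hv' : v < ⊤) : DDF where
  f s := max (F.f (u * s)) (G.f (v * s))
  mono a b h := max_le_max (F.mono (by gcongr)) (G.mono (by gcongr))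
  zero := by simp [F.zero, G.zero]
  top := by simp [hu.ne', hv.ne', F.top, G.top]
  lc x h0 h1 := ContinuousWithinAt.sup
    (lc_comp F (g := fun s => u * s) (fun a b h => mul_le_mul_right h _)
      (ENNReal.continuous_const_mul hu'.ne).continuousAt (ENNReal.mul_pos hu.ne' h0.ne')
      (ENNReal.mul_lt_top hu' h1))
    (lc_comp G (g := fun s => v * s) (fun a b h => mul_le_mul_right h _)
      (ENNReal.continuous_const_mul hv'.ne).continuousAt (ENNReal.mul_pos hv.ne' h0.ne')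
      (ENNReal.mul_lt_top hv' h1))

theorem result (τ : DDF → DDF → DDF) (hτ : IsTriangle τ) (hU : Universal τ) (F G : DDF)
    (x : ℝ≥0∞) : (τ F G).f x ≤ tauM F G x := by
  obtain ⟨hc, -, hm1, hm2, hid⟩ := hτ
  have hb : ∀ u v, u + v = x → min (F.f u) (G.f v) ≤ tauM F G x := fun u v h =>
    le_csSup ⟨1, by rintro _ ⟨u, v, -, rfl⟩; exact min_le_of_left_le (le_one _ _)⟩ ⟨u, v, h, rfl⟩
  set t := tauM F G x
  have ht : 0 ≤ t := (le_min (nonneg _ _) (nonneg _ _)).trans (hb x 0 (add_zero _))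
  have he : IsEps0 eps0 := fun y hy => if_neg hy.ne'
  have hle : ∀ H : DDF, Le H eps0 := fun H y => by
    simp only [eps0]
    split_ifs with h
    · rw [h, H.zero]
    · exact le_one _ _
  have hG : (τ F G).f x ≤ G.f x := by simpa only [hid _ _ he] using hm1 F eps0 G (hle F) x
  have hF : (τ F G).f x ≤ F.f x := by
    simpa only [hc F eps0, hid _ _ he] using hm2 F G eps0 (hle G) x
  rcases eq_or_ne x ⊤ with rfl | x1
  · simpa [F.top, G.top, (τ F G).top] using hb ⊤ ⊤ rfl
  let u := sSup {u | u ≤ x ∧ F.f u ≤ t}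
  have hux : u ≤ x := sSup_le fun _ h => h.1
  have hu1 : u < ⊤ := hux.trans_lt x1.lt_top
  have hv1 : x - u < ⊤ := tsub_le_self.trans_lt x1.lt_top
  have hFu : F.f u ≤ t := lc_le F hu1 ht fun y hy => by
    obtain ⟨z, hz, hyz⟩ := lt_sSup_iff.1 hy
    exact (F.mono hyz.le).trans hz.2
  have hGv : G.f (x - u) ≤ t := lc_le G hv1 ht fun y hy => by
    have hyx : y ≤ x := hy.le.trans tsub_le_self
    have h1 := hb (x - y) y (tsub_add_cancel_of_le hyx)
    refine (min_le_iff.1 h1).resolve_left fun h2 => ?_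
    have h3 : x - y ≤ u := le_sSup ⟨tsub_le_self, h2⟩
    rw [tsub_le_iff_tsub_le] at h3
    exact absurd hy (not_lt.2 h3)
  rcases eq_or_ne u 0 with u0 | u0
  · rw [u0, tsub_zero] at hGv
    exact hG.trans hGv
  rcases eq_or_ne (x - u) 0 with v0 | v0
  · exact hF.trans ((F.mono (tsub_eq_zero_iff_le.1 v0)).trans hFu)
  let H := mx F G u (x - u) (pos_iff_ne_zero.2 u0) hu1 (pos_iff_ne_zero.2 v0) hv1
  have hH : H.f 1 ≤ t := by simpa [H, mx] using And.intro hFu hGv
  have h1 : Le F (dil H u) := fun y => by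
    simp only [dil]
    split_ifs
    · exact le_one _ _
    · refine le_max_of_le_left ?_
      rw [ENNReal.mul_div_cancel u0 hu1.ne]
  have h2 : Le G (dil H (x - u)) := fun y => by
    simp only [dil]
    split_ifs
    · exact le_one _ _
    · refine le_max_of_le_right ?_
      rw [ENNReal.mul_div_cancel v0 hv1.ne]
  by_cases c0 : IsEps0 H
  · exact (le_one _ _).trans ((c0 1 one_pos).symm.le.trans hH)
  by_cases c1 : IsEpsInf H
  · have := h1 x
    simp only [dil, if_neg x1] at this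
    rw [c1 _ (ENNReal.div_lt_top x1 u0)] at this
    linarith
  have x0 : x ≠ 0 := fun h => u0 (le_antisymm (h ▸ hux) zero_le)
  have key := hU ℝ H c0 c1 (fun p q => dil H (edist p q)) (fun p q y hy => if_neg hy.ne)
    0 u.toReal x.toReal x
  have e1 : edist (0 : ℝ) u.toReal = u := by
    simp [edist_dist, ENNReal.ofReal_toReal hu1.ne]
  have e2 : edist (0 : ℝ) x.toReal = x := by
    simp [edist_dist, ENNReal.ofReal_toReal x1]
  have e3 : edist u.toReal x.toReal = x - u := by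
    rw [edist_comm, edist_dist, Real.dist_eq, ← ENNReal.toReal_sub_of_le hux x1,
      abs_of_nonneg ENNReal.toReal_nonneg, ENNReal.ofReal_toReal hv1.ne]
  simp only [e1, e2, e3] at key
  refine (hm1 _ _ G h1 x).trans ((hm2 _ _ _ h2 x).trans (key.trans ?_))
  simpa [dil, x1, ENNReal.div_self x0 x1] using hH

end Pool.Agent.Results.MP_6d1e65_an.Strongest
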